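import Mathlib

/-!
# Upper bound for the number of visible pairs (combinatorial part)
-/

namespace Pool.Agent.T6.H91.SA

open Finset

open scoped Classical in
/-- Visibility of `u` and `v` along the line of direction `θ`. -/
def VisC {n : ℕ} (r b : Fin n → ℝ) (k : ℕ) (u v : Fin n) : Prop :=
  ∃ θ s t : ℝ, 0 < θ ∧ θ < Real.pi ∧
    ((s = r u ∧ θ ≤ b u) ∨ (s = -r u ∧ θ + Real.pi ≤ b u)) ∧
    ((t = r v ∧ θ ≤ b v) ∨ (t = -r v ∧ θ + Real.pi ≤ b v)) ∧
    (univ.filter (fun w => w ≠ u ∧ w ≠ v ∧ ((θ ≤ b w ∧ r w ∈ Set.uIcc s t) ∨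
      (θ + Real.pi ≤ b w ∧ -r w ∈ Set.uIcc s t)))).card ≤ k

/-- `w` is longer than `i` (ties broken by the index). -/
def lg {n : ℕ} (b : Fin n → ℝ) (i w : Fin n) : Prop := b i < b w ∨ (b i = b w ∧ i < w)

/-- `w` is present on the ray opposite to the positive endpoint of `i`. -/
def opp {n : ℕ} (b : Fin n → ℝ) (i w : Fin n) : Prop :=
  (b i < Real.pi ∧ b i + Real.pi ≤ b w) ∨ (Real.pi ≤ b i ∧ b i - Real.pi ≤ b w)

lemma lg_le {n : ℕ} {b : Fin n → ℝ} {i w : Fin n} (h : lg b i w) : b i ≤ b w := by
  rcases h with h | h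
  · exact h.le
  · exact h.1.le

lemma lg_ne {n : ℕ} {b : Fin n → ℝ} {i w : Fin n} (h : lg b i w) : w ≠ i := by
  rintro rfl
  rcases h with h | h
  · exact lt_irrefl _ h
  · exact lt_irrefl _ h.2

lemma lg_total {n : ℕ} (b : Fin n → ℝ) {i w : Fin n} (h : i ≠ w) : lg b i w ∨ lg b w i := by
  unfold lg
  rcases lt_trichotomy (b i) (b w) with h1 | h1 | h1
  · exact Or.inl (Or.inl h1)
  · rcases lt_or_gt_of_ne h with h2 | h2
    · exact Or.inl (Or.inr ⟨h1, h2⟩)
    · exact Or.inr (Or.inr ⟨h1.symm, h2⟩)
  · exact Or.inr (Or.inl h1)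

open scoped Classical in
/-- Longer arcs seen outwards. -/
noncomputable def OO {n : ℕ} (r b : Fin n → ℝ) (k : ℕ) (i : Fin n) : Finset (Fin n) :=
  univ.filter (fun j => r i < r j ∧ lg b i j ∧
    (univ.filter (fun w => r i < r w ∧ r w < r j ∧ lg b i w)).card ≤ k)

open scoped Classical in
/-- Longer arcs seen inwards. -/
noncomputable def I1 {n : ℕ} (r b : Fin n → ℝ) (k : ℕ) (i : Fin n) : Finset (Fin n) :=
  univ.filter (fun j => r j < r i ∧ lg b i j ∧
    (univ.filter (fun w => r j < r w ∧ r w < r i ∧ lg b i w)).card ≤ k)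

open scoped Classical in
/-- Arcs seen through the origin. -/
noncomputable def I2 {n : ℕ} (r b : Fin n → ℝ) (k : ℕ) (i : Fin n) : Finset (Fin n) :=
  univ.filter (fun j => j ≠ i ∧ opp b i j ∧
    (univ.filter (fun w => w ≠ i ∧ w ≠ j ∧ ((r w < r i ∧ lg b i w) ∨
      (r w < r j ∧ opp b i w)))).card ≤ k)

lemma OO_card {n : ℕ} (r b : Fin n → ℝ) (hr : Function.Injective r) (k : ℕ) (i : Fin n) :
    (OO r b k i).card ≤ k + 1 := by
  classical
  rcases (OO r b k i).eq_empty_or_nonempty with h | h
  · rw [h]; simp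
  · obtain ⟨j, hj, hmax⟩ := Finset.exists_max_image _ r h
    have hj' := hj
    unfold OO at hj'
    rw [mem_filter] at hj'
    have h1 : (OO r b k i).erase j ⊆
        univ.filter (fun w => r i < r w ∧ r w < r j ∧ lg b i w) := by
      intro w hw
      rw [mem_erase] at hw
      have h2 := hw.2
      unfold OO at h2
      rw [mem_filter] at h2
      rw [mem_filter]
      refine ⟨mem_univ _, h2.2.1, ?_, h2.2.2.1⟩
      exact lt_of_le_of_ne (hmax w hw.2) (fun h => hw.1 (hr h))
    have h2 := card_le_card h1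
    rw [card_erase_of_mem hj] at h2
    have h3 := hj'.2.2.2
    omega

open scoped Classical in
lemma OO_card' {n : ℕ} (r b : Fin n → ℝ) (k : ℕ) (i : Fin n) :
    (OO r b k i).card ≤ (univ.filter (fun j => r i < r j)).card := by
  apply card_le_card
  intro j hj
  unfold OO at hj
  rw [mem_filter] at hj
  rw [mem_filter]
  exact ⟨mem_univ _, hj.2.1⟩

lemma II_card {n : ℕ} (r b : Fin n → ℝ) (hr : Function.Injective r) (k : ℕ) (i : Fin n) :
    (open scoped Classical in (I1 r b k i ∪ I2 r b k i)).card ≤ k + 1 := by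
  classical
  rcases (I2 r b k i).eq_empty_or_nonempty with h | h
  · rw [h, union_empty]
    rcases (I1 r b k i).eq_empty_or_nonempty with h0 | h0
    · rw [h0]; simp
    · obtain ⟨j, hj, hmin⟩ := Finset.exists_min_image _ r h0
      have hj' := hj
      unfold I1 at hj'
      rw [mem_filter] at hj'
      have h1 : (I1 r b k i).erase j ⊆
          univ.filter (fun w => r j < r w ∧ r w < r i ∧ lg b i w) := by
        intro w hw
        rw [mem_erase] at hw
        have h2 := hw.2
        unfold I1 at h2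
        rw [mem_filter] at h2
        rw [mem_filter]
        refine ⟨mem_univ _, ?_, h2.2.1, h2.2.2.1⟩
        exact lt_of_le_of_ne (hmin w hw.2) (fun h => hw.1 (hr h).symm)
      have h2 := card_le_card h1
      rw [card_erase_of_mem hj] at h2
      have h3 := hj'.2.2.2
      omega
  · obtain ⟨j, hj, hmax⟩ := Finset.exists_max_image _ r h
    have hj' := hj
    unfold I2 at hj'
    rw [mem_filter] at hj'
    have h1 : (I1 r b k i ∪ I2 r b k i).erase j ⊆
        univ.filter (fun w => w ≠ i ∧ w ≠ j ∧ ((r w < r i ∧ lg b i w) ∨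
          (r w < r j ∧ opp b i w))) := by
      intro w hw
      rw [mem_erase, mem_union] at hw
      obtain ⟨hwj, hw⟩ := hw
      rw [mem_filter]
      refine ⟨mem_univ _, ?_⟩
      rcases hw with hw | hw
      · unfold I1 at hw
        rw [mem_filter] at hw
        exact ⟨lg_ne hw.2.2.1, hwj, Or.inl ⟨hw.2.1, hw.2.2.1⟩⟩
      · have hw' := hw
        unfold I2 at hw'
        rw [mem_filter] at hw'
        exact ⟨hw'.2.1, hwj, Or.inr ⟨lt_of_le_of_ne (hmax w hw) (fun h => hwj (hr h)),
          hw'.2.2.1⟩⟩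
    have h2 := card_le_card h1
    rw [card_erase_of_mem (mem_union_right _ hj)] at h2
    have h3 := hj'.2.2.2
    omega

/-- The key case analysis: a visible pair is charged to one of its arcs. -/
lemma charge {n : ℕ} (r b : Fin n → ℝ) (hr0 : ∀ i, 0 < r i) (hr : Function.Injective r)
    (hb : ∀ i, b i < 2 * Real.pi) (k : ℕ) {u v : Fin n} (huv : lg b u v)
    (h : VisC r b k u v) :
    (v ∈ OO r b k u ∨ v ∈ I1 r b k u ∨ v ∈ I2 r b k u) ∨ u ∈ I2 r b k v := by
  classical
  obtain ⟨θ, s, t, hθ, hθ', hs, ht, hc⟩ := h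
  have hle := lg_le huv
  have hne := lg_ne huv
  have hpi := Real.pi_pos
  have hu0 := hr0 u
  have hv0 := hr0 v
  rcases hs with ⟨rfl, hs⟩ | ⟨rfl, hs⟩ <;> rcases ht with ⟨rfl, ht⟩ | ⟨rfl, ht⟩
  · -- both on the positive ray
    left
    rcases lt_trichotomy (r u) (r v) with h1 | h1 | h1
    · left
      unfold OO
      rw [mem_filter]
      refine ⟨mem_univ _, h1, huv, le_trans (card_le_card ?_) hc⟩
      intro w hw
      rw [mem_filter] at hw ⊢
      obtain ⟨-, h2, h3, h4⟩ := hw
      refine ⟨mem_univ _, lg_ne h4, fun h => absurd h3 (by rw [h]; exact lt_irrefl _), Or.inl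
        ⟨hs.trans (lg_le h4), ?_⟩⟩
      rw [Set.uIcc_of_le h1.le]
      exact ⟨h2.le, h3.le⟩
    · exact absurd (hr h1).symm hne
    · right; left
      unfold I1
      rw [mem_filter]
      refine ⟨mem_univ _, h1, huv, le_trans (card_le_card ?_) hc⟩
      intro w hw
      rw [mem_filter] at hw ⊢
      obtain ⟨-, h2, h3, h4⟩ := hw
      refine ⟨mem_univ _, lg_ne h4, fun h => absurd h2 (by rw [h]; exact lt_irrefl _), Or.inl
        ⟨hs.trans (lg_le h4), ?_⟩⟩
      rw [Set.uIcc_of_ge h1.le]
      exact ⟨h2.le, h3.le⟩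
  · -- `u` on the positive ray, `v` on the negative ray
    by_cases hcase : b u < Real.pi ∧ b u + Real.pi ≤ b v
    · left; right; right
      unfold I2
      rw [mem_filter]
      refine ⟨mem_univ _, hne, Or.inl hcase, le_trans (card_le_card ?_) hc⟩
      intro w hw
      rw [mem_filter] at hw ⊢
      obtain ⟨-, h1, h2, h3⟩ := hw
      refine ⟨mem_univ _, h1, h2, ?_⟩
      rw [Set.uIcc_of_ge (by linarith : -r v ≤ r u)]
      have hw0 := hr0 w
      rcases h3 with ⟨h3, h4⟩ | ⟨h3, h4⟩
      · left
        exact ⟨hs.trans (lg_le h4), by linarith, h3.le⟩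
      · right
        rcases h4 with h4 | h4
        · exact ⟨by linarith, by linarith, by linarith⟩
        · exact absurd hcase.1 (not_lt.2 h4.1)
    · right
      have hopp : Real.pi ≤ b v ∧ b v - Real.pi ≤ b u := by
        refine ⟨by linarith, ?_⟩
        by_cases h1 : b u < Real.pi
        · have h2 : ¬ (b u + Real.pi ≤ b v) := fun h => hcase ⟨h1, h⟩
          linarith
        · have := hb v
          linarith
      unfold I2
      rw [mem_filter]
      refine ⟨mem_univ _, hne.symm, Or.inr hopp, le_trans (card_le_card ?_) hc⟩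
      intro w hw
      rw [mem_filter] at hw ⊢
      obtain ⟨-, h1, h2, h3⟩ := hw
      refine ⟨mem_univ _, h2, h1, ?_⟩
      rw [Set.uIcc_of_ge (by linarith : -r v ≤ r u)]
      have hw0 := hr0 w
      rcases h3 with ⟨h3, h4⟩ | ⟨h3, h4⟩
      · right
        have := lg_le h4
        exact ⟨by linarith, by linarith, by linarith⟩
      · left
        rcases h4 with h4 | h4
        · exact absurd h4.1 (not_lt.2 hopp.1)
        · exact ⟨by linarith, by linarith, h3.le⟩
  · -- `u` on the negative ray, `v` on the positive ray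
    left; right; right
    unfold I2
    rw [mem_filter]
    refine ⟨mem_univ _, hne, Or.inr ⟨by linarith, by linarith⟩, le_trans (card_le_card ?_) hc⟩
    intro w hw
    rw [mem_filter] at hw ⊢
    obtain ⟨-, h1, h2, h3⟩ := hw
    refine ⟨mem_univ _, h1, h2, ?_⟩
    rw [Set.uIcc_of_le (by linarith : -r u ≤ r v)]
    have hw0 := hr0 w
    rcases h3 with ⟨h3, h4⟩ | ⟨h3, h4⟩
    · right
      have := lg_le h4
      exact ⟨by linarith, by linarith, by linarith⟩
    · left
      rcases h4 with h4 | h4
      · exact absurd h4.1 (by linarith)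
      · exact ⟨by linarith, by linarith, h3.le⟩
  · -- both on the negative ray
    left
    rcases lt_trichotomy (r u) (r v) with h1 | h1 | h1
    · left
      unfold OO
      rw [mem_filter]
      refine ⟨mem_univ _, h1, huv, le_trans (card_le_card ?_) hc⟩
      intro w hw
      rw [mem_filter] at hw ⊢
      obtain ⟨-, h2, h3, h4⟩ := hw
      refine ⟨mem_univ _, lg_ne h4, fun h => absurd h3 (by rw [h]; exact lt_irrefl _), Or.inr
        ⟨hs.trans (lg_le h4), ?_⟩⟩
      rw [Set.uIcc_of_ge (by linarith : -r v ≤ -r u)]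
      exact ⟨by linarith, by linarith⟩
    · exact absurd (hr h1).symm hne
    · right; left
      unfold I1
      rw [mem_filter]
      refine ⟨mem_univ _, h1, huv, le_trans (card_le_card ?_) hc⟩
      intro w hw
      rw [mem_filter] at hw ⊢
      obtain ⟨-, h2, h3, h4⟩ := hw
      refine ⟨mem_univ _, lg_ne h4, fun h => absurd h2 (by rw [h]; exact lt_irrefl _), Or.inr
        ⟨hs.trans (lg_le h4), ?_⟩⟩
      rw [Set.uIcc_of_le (by linarith : -r u ≤ -r v)]
      exact ⟨by linarith, by linarith⟩

lemma VisC_symm {n : ℕ} {r b : Fin n → ℝ} {k : ℕ} {u v : Fin n} (h : VisC r b k u v) :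
    VisC r b k v u := by
  classical
  obtain ⟨θ, s, t, h1, h2, h3, h4, h5⟩ := h
  refine ⟨θ, t, s, h1, h2, h4, h3, le_trans (card_le_card ?_) h5⟩
  intro w hw
  rw [mem_filter] at hw ⊢
  rw [Set.uIcc_comm t s] at hw
  exact ⟨hw.1, hw.2.2.1, hw.2.1, hw.2.2.2⟩

open scoped Classical in
lemma sum_rank {n : ℕ} (r : Fin n → ℝ) (hr : Function.Injective r) (c : ℕ) :
    ∑ i : Fin n, min c (univ.filter (fun j => r i < r j)).card =
      ∑ m ∈ range n, min c m := by
  have hinj : Set.InjOn (fun i : Fin n => (univ.filter (fun j => r i < r j)).card)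
      (univ : Finset (Fin n)) := by
    intro i _ j _ hij
    simp only at hij
    by_contra hne
    rcases lt_or_gt_of_ne (fun h => hne (hr h)) with h | h
    · have : (univ.filter (fun l => r j < r l)) ⊂ (univ.filter (fun l => r i < r l)) := by
        refine ⟨fun l hl => ?_, fun hsub => ?_⟩
        · rw [mem_filter] at hl ⊢
          exact ⟨mem_univ _, h.trans hl.2⟩
        · have := hsub (mem_filter.2 ⟨mem_univ j, h⟩)
          rw [mem_filter] at this
          exact lt_irrefl _ this.2
      have := card_lt_card this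
      omega
    · have : (univ.filter (fun l => r i < r l)) ⊂ (univ.filter (fun l => r j < r l)) := by
        refine ⟨fun l hl => ?_, fun hsub => ?_⟩
        · rw [mem_filter] at hl ⊢
          exact ⟨mem_univ _, h.trans hl.2⟩
        · have := hsub (mem_filter.2 ⟨mem_univ i, h⟩)
          rw [mem_filter] at this
          exact lt_irrefl _ this.2
      have := card_lt_card this
      omega
  have himg : (univ : Finset (Fin n)).image
      (fun i : Fin n => (univ.filter (fun j => r i < r j)).card) = range n := by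
    apply eq_of_subset_of_card_le
    · intro m hm
      rw [mem_image] at hm
      obtain ⟨i, -, rfl⟩ := hm
      rw [mem_range]
      have : (univ.filter (fun j => r i < r j)) ⊂ (univ : Finset (Fin n)) := by
        refine ⟨fun _ _ => mem_univ _, fun hsub => ?_⟩
        have := hsub (mem_univ i)
        rw [mem_filter] at this
        exact lt_irrefl _ this.2
      have := card_lt_card this
      simpa using this
    · rw [card_image_of_injOn hinj]
      simp
  rw [← himg, sum_image hinj]

end Pool.Agent.T6.H91.SA
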