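import Mathlib
import Pool.Agent.Results.MP_e2d93f_co.AllK

/-!
# Semi-arc visibility of arcs with prescribed integer event times

`n` arcs of radii `1, …, n`; the arcs of rank `< u` end before angle `π`, the others after `π`.
-/

namespace Pool.Agent.T6.H91.SA

open Pool.Agent.Results.MP_e2d93f_co.AllK

/-- The time unit. -/
noncomputable def uu (n : ℕ) : ℝ := Real.pi / (n + 1)

lemma uu_pos (n : ℕ) : 0 < uu n := by
  unfold uu
  have := Real.pi_pos
  positivity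

lemma uu_mul (n : ℕ) : uu n * (n + 1) = Real.pi := by
  unfold uu
  have : ((n : ℝ) + 1) ≠ 0 := by positivity
  field_simp

/-- End angle of the arc of rank `w`. -/
noncomputable def eA (n u : ℕ) (E : ℕ → ℕ) (w : ℕ) : ℝ :=
  (if w < u then 0 else Real.pi) + uu n * E w

variable {n u : ℕ} {E : ℕ → ℕ}

lemma uE_lt (hE : ∀ w < n, E w ≤ n) {w : ℕ} (hw : w < n) : uu n * E w < Real.pi := by
  rw [← uu_mul n]
  apply mul_lt_mul_of_pos_left _ (uu_pos n)
  have : (E w : ℝ) ≤ n := by exact_mod_cast hE w hw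
  linarith

/-- The arcs. -/
noncomputable def ar (n u : ℕ) (E : ℕ → ℕ) (hE : ∀ w < n, E w ≤ n) (w : Fin n) : Arc where
  r := (w : ℕ) + 1
  a := 0
  b := eA n u E w
  hr := by positivity
  ha0 := le_refl _
  ha1 := by have := Real.pi_pos; positivity
  hab := by
    unfold eA
    have := Real.pi_pos
    have := uu_pos n
    split_ifs <;> positivity
  hb := by
    unfold eA
    have := Real.pi_pos
    have := uE_lt hE w.2
    split_ifs <;> linarith

lemma eA_lt (hE : ∀ w < n, E w ≤ n) (w : Fin n) : eA n u E w < 2 * Real.pi := by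
  have := (ar n u E hE w).hb
  simpa [ar] using this

lemma disj' (hE : ∀ w < n, E w ≤ n) (x y : Fin n) (h : x ≠ y) :
    Disjoint (ar n u E hE x).carrier (ar n u E hE y).carrier := by
  rw [Set.disjoint_left]
  rintro z ⟨φ, -, rfl⟩ ⟨ψ, -, h2⟩
  apply h
  have hn := congrArg (fun z : ℂ => ‖z‖) h2
  simp only [pt, norm_mul, Complex.norm_exp_ofReal_mul_I, mul_one, Complex.norm_real,
    Real.norm_eq_abs, abs_of_pos (ar n u E hE x).hr, abs_of_pos (ar n u E hE y).hr] at hn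
  simp only [ar, add_left_inj, Nat.cast_inj] at hn
  exact Fin.ext hn

lemma cpos (τ : ℕ) (hτ : τ ≤ n) {φ : ℝ}
    (hφ : φ ∈ Set.Icc (uu n * (τ + 1 / 4)) (uu n * (τ + 3 / 4))) : 0 < φ ∧ φ < Real.pi := by
  have hu := uu_pos n
  constructor
  · have : 0 < uu n * (τ + 1 / 4 : ℝ) := by positivity
    linarith [hφ.1]
  · have h1 : uu n * (τ + 3 / 4 : ℝ) < uu n * (n + 1) := by
      apply mul_lt_mul_of_pos_left _ hu
      have : (τ : ℝ) ≤ n := by exact_mod_cast hτ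
      linarith
    rw [uu_mul n] at h1
    linarith [hφ.2]

lemma al_of_le (n τ t : ℕ) {φ : ℝ}
    (hφ : φ ∈ Set.Icc (uu n * (τ + 1 / 4)) (uu n * (τ + 3 / 4))) (h : φ ≤ uu n * t) :
    τ + 1 ≤ t := by
  have hu := uu_pos n
  by_contra hcon
  have h1 : t ≤ τ := by omega
  have h2 : (t : ℝ) ≤ τ := by exact_mod_cast h1
  have h3 : uu n * (t : ℝ) < uu n * (τ + 1 / 4) := by
    apply mul_lt_mul_of_pos_left _ hu
    linarith
  linarith [hφ.1]

lemma le_of_al (n τ t : ℕ) {φ : ℝ}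
    (hφ : φ ∈ Set.Icc (uu n * (τ + 1 / 4)) (uu n * (τ + 3 / 4))) (h : τ + 1 ≤ t) :
    φ ≤ uu n * t := by
  have hu := uu_pos n
  have h2 : (τ : ℝ) + 1 ≤ t := by exact_mod_cast h
  have h3 : uu n * (τ + 3 / 4 : ℝ) ≤ uu n * t := by
    apply mul_le_mul_of_nonneg_left _ hu.le
    linarith
  linarith [hφ.2]

/-- A point of signed radius `v` over the cell `τ` on an arc. -/
lemma mem_ar (hE : ∀ w < n, E w ≤ n) (τ : ℕ) (hτ : τ ≤ n) (w : Fin n) {φ v : ℝ}
    (hφ : φ ∈ Set.Icc (uu n * (τ + 1 / 4)) (uu n * (τ + 3 / 4)))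
    (h : pt v φ ∈ (ar n u E hE w).carrier) :
    (v = (w : ℕ) + 1 ∧ (u ≤ w.1 ∨ τ + 1 ≤ E w)) ∨
      (v = -((w : ℕ) + 1) ∧ u ≤ w.1 ∧ τ + 1 ≤ E w) := by
  obtain ⟨ψ, hψ, h⟩ := h
  have hc := cpos τ hτ hφ
  have he := eA_lt (u := u) hE w
  have hpi := Real.pi_pos
  have h0 : (0 : ℝ) ≤ ψ := hψ.1
  have h1 : ψ ≤ eA n u E w := hψ.2
  rcases pt_eq (ar n u E hE w).hr hc.1 hc.2 h0 (by linarith) h with ⟨hu, hh⟩ | ⟨hu, hh⟩
  · left
    refine ⟨hu, ?_⟩
    by_cases hk : (w : ℕ) < u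
    · right
      have h2 : φ ≤ uu n * E w := by
        have h3 := h1
        unfold eA at h3
        rw [if_pos hk] at h3
        linarith
      exact al_of_le n τ _ hφ h2
    · left
      omega
  · right
    refine ⟨hu, ?_⟩
    by_cases hk : (w : ℕ) < u
    · exfalso
      have h3 := h1
      unfold eA at h3
      rw [if_pos hk] at h3
      have := uE_lt hE w.2
      linarith
    · refine ⟨by omega, ?_⟩
      have h2 : φ ≤ uu n * E w := by
        have h3 := h1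
        unfold eA at h3
        rw [if_neg hk] at h3
        linarith
      exact al_of_le n τ _ hφ h2

lemma sd_pos (hE : ∀ w < n, E w ≤ n) (τ : ℕ) (hτ : τ ≤ n) (w : Fin n)
    (h : u ≤ w.1 ∨ τ + 1 ≤ E w) :
    side ((w : ℕ) + 1) (uu n * (τ + 1 / 4)) (uu n * (τ + 3 / 4)) ⊆
      (ar n u E hE w).carrier := by
  rintro z ⟨φ, hφ, rfl⟩
  have hc := cpos τ hτ hφ
  have hu := uu_pos n
  refine ⟨φ, ⟨hc.1.le, ?_⟩, rfl⟩
  show φ ≤ eA n u E w
  unfold eA
  by_cases hk : (w : ℕ) < u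
  · rw [if_pos hk]
    have h2 : τ + 1 ≤ E w := by
      rcases h with h | h
      · omega
      · exact h
    have := le_of_al n τ _ hφ h2
    linarith
  · rw [if_neg hk]
    have : 0 ≤ uu n * E w := by positivity
    linarith

lemma sd_neg (hE : ∀ w < n, E w ≤ n) (τ : ℕ) (hτ : τ ≤ n) (w : Fin n)
    (hk : u ≤ w.1) (h : τ + 1 ≤ E w) :
    side (-((w : ℕ) + 1)) (uu n * (τ + 1 / 4)) (uu n * (τ + 3 / 4)) ⊆
      (ar n u E hE w).carrier := by
  rintro z ⟨φ, hφ, rfl⟩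
  have hc := cpos τ hτ hφ
  have hu := uu_pos n
  have hpi := Real.pi_pos
  rw [pt_neg]
  refine ⟨φ + Real.pi, ⟨?_, ?_⟩, rfl⟩
  · show (0 : ℝ) ≤ φ + Real.pi
    linarith [hc.1]
  · show φ + Real.pi ≤ eA n u E w
    unfold eA
    rw [if_neg (by omega)]
    have := le_of_al n τ _ hφ h
    linarith

lemma cwid (n τ : ℕ) :
    uu n * (τ + 1 / 4) < uu n * (τ + 3 / 4 : ℝ) ∧
      uu n * (τ + 3 / 4 : ℝ) < uu n * (τ + 1 / 4) + Real.pi := by
  have hu := uu_pos n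
  have h1 := uu_mul n
  have h2 : (0 : ℝ) ≤ n := by positivity
  constructor
  · apply mul_lt_mul_of_pos_left _ hu
    linarith
  · rw [← h1]
    nlinarith

/-- Same-side visibility of arcs whose ranks differ by at most `k+1`. -/
lemma same' (hE : ∀ w < n, E w ≤ n) (hE1 : ∀ w < n, 1 ≤ E w) (k : ℕ) (a b : Fin n)
    (hab : a.1 < b.1) (hk : b.1 ≤ a.1 + k + 1) :
    KVisible k (ar n u E hE) a b := by
  have hw := cwid n 0
  refine ⟨(a : ℕ) + 1, (b : ℕ) + 1, uu n * ((0 : ℕ) + 1 / 4), uu n * ((0 : ℕ) + 3 / 4),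
    by positivity, by positivity, ?_, hw.1, hw.2, ?_, ?_, ?_⟩
  · intro h
    have : (a : ℕ) = b := by
      have h2 : ((a : ℕ) : ℝ) = (b : ℕ) := by linarith
      exact_mod_cast h2
    omega
  · apply sd_pos hE 0 (by omega)
    right
    have := hE1 a a.2
    omega
  · apply sd_pos hE 0 (by omega)
    right
    have := hE1 b b.2
    omega
  · apply encard_le _ k _ (Finset.Ioo a.1 b.1)
    · simp
      omega
    · rintro w ⟨hwa, hwb, z, ⟨φ, hφ, v, hv, rfl⟩, hz⟩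
      have hab' : ((a : ℕ) : ℝ) + 1 ≤ (b : ℕ) + 1 := by
        have : ((a : ℕ) : ℝ) ≤ (b : ℕ) := by exact_mod_cast hab.le
        linarith
      rw [Set.uIcc_of_le hab'] at hv
      rcases mem_ar hE 0 (by omega) w hφ hz with ⟨h1, -⟩ | ⟨h1, -⟩
      · rw [h1] at hv
        have h2 : ((a : ℕ) : ℝ) ≤ (w : ℕ) := by linarith [hv.1]
        have h3 : ((w : ℕ) : ℝ) ≤ (b : ℕ) := by linarith [hv.2]
        have h4 : a.1 ≤ w.1 := by exact_mod_cast h2
        have h5 : w.1 ≤ b.1 := by exact_mod_cast h3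
        have h6 : w.1 ≠ a.1 := fun h => hwa (Fin.ext h)
        have h7 : w.1 ≠ b.1 := fun h => hwb (Fin.ext h)
        rw [Finset.mem_Ioo]
        omega
      · exfalso
        rw [h1] at hv
        have h2 : (0 : ℝ) ≤ (a : ℕ) := by positivity
        have h3 : (0 : ℝ) ≤ (w : ℕ) := by positivity
        linarith [hv.1]

/-- Visibility through the origin in cell `τ`: `a` on the negative side, `b` on the positive
side. -/
lemma cross' (hE : ∀ w < n, E w ≤ n) (k τ : ℕ) (hτ : τ ≤ n) (a b : Fin n)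
    (ha : u ≤ a.1) (hTa : τ + 1 ≤ E a) (hb : u ≤ b.1 ∨ τ + 1 ≤ E b)
    (S : Finset ℕ) (hS : S.card ≤ k)
    (h1 : ∀ w : ℕ, w < b.1 → w ≠ a.1 → (u ≤ w ∨ τ + 1 ≤ E w) → w ∈ S)
    (h2 : ∀ w : ℕ, w < a.1 → w ≠ b.1 → u ≤ w → τ + 1 ≤ E w → w ∈ S) :
    KVisible k (ar n u E hE) a b := by
  have hw := cwid n τ
  have ha0 : (0 : ℝ) ≤ (a : ℕ) := by positivity
  have hb0 : (0 : ℝ) ≤ (b : ℕ) := by positivity
  refine ⟨-((a : ℕ) + 1), (b : ℕ) + 1, uu n * (τ + 1 / 4), uu n * (τ + 3 / 4),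
    ?_, by positivity, ?_, hw.1, hw.2, ?_, ?_, ?_⟩
  · intro h
    linarith
  · intro h
    linarith
  · exact sd_neg hE τ hτ a ha hTa
  · exact sd_pos hE τ hτ b hb
  · apply encard_le _ k _ S hS
    rintro w ⟨hwa, hwb, z, ⟨φ, hφ, v, hv, rfl⟩, hz⟩
    have h6 : w.1 ≠ a.1 := fun h => hwa (Fin.ext h)
    have h7 : w.1 ≠ b.1 := fun h => hwb (Fin.ext h)
    have hab' : -(((a : ℕ) : ℝ) + 1) ≤ (b : ℕ) + 1 := by linarith
    rw [Set.uIcc_of_le hab'] at hv
    rcases mem_ar hE τ hτ w hφ hz with ⟨h3, h4⟩ | ⟨h3, h4, h5⟩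
    · rw [h3] at hv
      have h8 : ((w : ℕ) : ℝ) ≤ (b : ℕ) := by linarith [hv.2]
      have h9 : w.1 ≤ b.1 := by exact_mod_cast h8
      exact h1 w (by omega) h6 h4
    · rw [h3] at hv
      have h8 : ((w : ℕ) : ℝ) ≤ (a : ℕ) := by linarith [hv.1]
      have h9 : w.1 ≤ a.1 := by exact_mod_cast h8
      exact h2 w (by omega) h7 h4 h5

end Pool.Agent.T6.H91.SA
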