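import Mathlib
import Pool.Agent.T6.H91.SA.Vis

/-!
# A family of semi-arc `k`-visibility graphs with many edges
-/

namespace Pool.Agent.T6.H91.SA

open Pool.Agent.Results.MP_e2d93f_co.AllK

/-- The event times: first the long arcs outside the last `K`, then the short arcs, then the last
`K` long arcs. -/
def ET (n K u w : ℕ) : ℕ :=
  if w < u then n - K - u + w + 1 else if w < n - K then w - u + 1 else w + 1

/-- The visible pairs. -/
def Vp (n K u a b : ℕ) : Prop :=
  b ≤ a + K ∨ (a < K ∧ u ≤ b) ∨ (a < u + K ∧ n - K ≤ b)

lemma ET_le {n K u : ℕ} (h : u + 2 * K ≤ n) : ∀ w < n, ET n K u w ≤ n := by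
  intro w hw
  unfold ET
  split_ifs <;> omega

lemma ET_pos {n K u : ℕ} : ∀ w < n, 1 ≤ ET n K u w := by
  intro w hw
  unfold ET
  split_ifs <;> omega

lemma vis' {n K u : ℕ} (hK : 1 ≤ K) (hu : K ≤ u) (h : u + 2 * K ≤ n) (a b : Fin n)
    (hab : a.1 < b.1) (hv : Vp n K u a b) :
    KVisible (K - 1) (ar n u (ET n K u) (ET_le h)) a b := by
  have ha := a.2
  have hb := b.2
  by_cases h0 : b.1 ≤ a.1 + K
  · exact same' (ET_le h) ET_pos (K - 1) a b hab (by omega)
  · have hv2 : (a.1 < K ∧ u ≤ b.1) ∨ (a.1 < u + K ∧ n - K ≤ b.1) := by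
      rcases hv with hv | hv
      · exact absurd hv h0
      · exact hv
    apply KVisible_symm
    by_cases hbM : n - K ≤ b.1
    · have haP : a.1 < u + K := by
        rcases hv2 with hv2 | hv2 <;> omega
      by_cases hau : a.1 < u
      · -- short `a`, `b` one of the last `K`
        apply cross' (ET_le h) (K - 1) (ET n K u a - 1) ?_ b a (by omega) ?_ ?_
          (Finset.Ico (n - K) b.1) ?_ ?_ ?_
        · have := ET_le h a.1 ha
          omega
        · unfold ET
          split_ifs <;> omega
        · right
          unfold ET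
          split_ifs <;> omega
        · simp; omega
        · intro w h1 h2 h3
          exfalso
          unfold ET at h3
          split_ifs at h3 <;> omega
        · intro w h1 h2 h3 h4
          rw [Finset.mem_Ico]
          refine ⟨?_, h1⟩
          unfold ET at h4
          split_ifs at h4 <;> omega
      · -- `a` among the first `K` long arcs
        apply cross' (ET_le h) (K - 1) b.1 (by omega) b a (by omega) ?_ ?_
          (Finset.Ico u a.1) ?_ ?_ ?_
        · unfold ET
          split_ifs <;> omega
        · left
          omega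
        · simp; omega
        · intro w h1 h2 h3
          rw [Finset.mem_Ico]
          refine ⟨?_, h1⟩
          rcases h3 with h3 | h3
          · exact h3
          · unfold ET at h3
            split_ifs at h3 <;> omega
        · intro w h1 h2 h3 h4
          exfalso
          unfold ET at h4
          split_ifs at h4 <;> omega
    · -- `a < K`, `b` long
      have haK : a.1 < K ∧ u ≤ b.1 := by
        rcases hv2 with hv2 | hv2
        · exact hv2
        · exact absurd hv2.2 hbM
      apply cross' (ET_le h) (K - 1) (b.1 - u) (by omega) b a (by omega) ?_ ?_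
        (Finset.range a.1) (by simp; omega) ?_ ?_
      · unfold ET
        split_ifs <;> omega
      · right
        unfold ET
        split_ifs <;> omega
      · intro w h1 h2 h3
        simp; omega
      · intro w h1 h2 h3 h4
        exfalso
        unfold ET at h4
        split_ifs at h4 <;> omega

/-- The graph of the configuration. -/
noncomputable def GG (n K u : ℕ) (h : u + 2 * K ≤ n) : SimpleGraph (Fin n) where
  Adj x y := x ≠ y ∧ KVisible (K - 1) (ar n u (ET n K u) (ET_le h)) x y
  symm := ⟨fun _ _ hxy => ⟨hxy.1.symm, KVisible_symm hxy.2⟩⟩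
  loopless := ⟨fun _ hx => hx.1 rfl⟩

lemma GG_semi (n K u : ℕ) (h : u + 2 * K ≤ n) :
    IsSemiArcVisibility (K - 1) (GG n K u h) := by
  refine ⟨ar n u (ET n K u) (ET_le h), fun v => rfl, disj' (ET_le h), ?_⟩
  intro x y hxy
  constructor
  · exact fun h => h.2
  · exact fun h => ⟨hxy, h⟩

/-- Number of visible pairs `(a, b)`, `a < b`, for a given `a`. -/
def dd (n K u a : ℕ) : ℕ :=
  if a < K then min (n - 1 - a) (n - u + K) else if a < u then 2 * K
    else if a < u + K then min (2 * K) (n - 1 - a) else min K (n - 1 - a)

instance (n K u a b : ℕ) : Decidable (Vp n K u a b) := by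
  unfold Vp
  infer_instance

lemma dd_le {n K u : ℕ} (hK : 1 ≤ K) (hu : K ≤ u) (hu2 : u ≤ 2 * K) (h : u + 2 * K ≤ n)
    {a : ℕ} (ha : a < n) :
    dd n K u a ≤ ((Finset.range n).filter (fun b => a < b ∧ Vp n K u a b)).card := by
  unfold dd
  split_ifs with h1 h2 h3
  · -- a < K
    by_cases hc : a + K + 1 ≤ u
    · have hsub : Finset.Ioc a (a + K) ∪ Finset.Ico u n ⊆
          (Finset.range n).filter (fun b => a < b ∧ Vp n K u a b) := by
        intro b hb
        rw [Finset.mem_union, Finset.mem_Ioc, Finset.mem_Ico] at hb
        rw [Finset.mem_filter, Finset.mem_range]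
        unfold Vp
        omega
      have hd : Disjoint (Finset.Ioc a (a + K)) (Finset.Ico u n) := by
        rw [Finset.disjoint_left]
        intro b hb hb'
        rw [Finset.mem_Ioc] at hb
        rw [Finset.mem_Ico] at hb'
        omega
      have := Finset.card_le_card hsub
      rw [Finset.card_union_of_disjoint hd] at this
      simp only [Nat.card_Ioc, Nat.card_Ico] at this
      omega
    · have hsub : Finset.Ioo a n ⊆
          (Finset.range n).filter (fun b => a < b ∧ Vp n K u a b) := by
        intro b hb
        rw [Finset.mem_Ioo] at hb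
        rw [Finset.mem_filter, Finset.mem_range]
        unfold Vp
        omega
      have := Finset.card_le_card hsub
      simp only [Nat.card_Ioo] at this
      omega
  · have hsub : Finset.Ioc a (a + K) ∪ Finset.Ico (n - K) n ⊆
        (Finset.range n).filter (fun b => a < b ∧ Vp n K u a b) := by
      intro b hb
      rw [Finset.mem_union, Finset.mem_Ioc, Finset.mem_Ico] at hb
      rw [Finset.mem_filter, Finset.mem_range]
      unfold Vp
      omega
    have hd : Disjoint (Finset.Ioc a (a + K)) (Finset.Ico (n - K) n) := by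
      rw [Finset.disjoint_left]
      intro b hb hb'
      rw [Finset.mem_Ioc] at hb
      rw [Finset.mem_Ico] at hb'
      omega
    have := Finset.card_le_card hsub
    rw [Finset.card_union_of_disjoint hd] at this
    simp only [Nat.card_Ioc, Nat.card_Ico] at this
    omega
  · by_cases hc : a + K + 1 ≤ n - K
    · have hsub : Finset.Ioc a (a + K) ∪ Finset.Ico (n - K) n ⊆
          (Finset.range n).filter (fun b => a < b ∧ Vp n K u a b) := by
        intro b hb
        rw [Finset.mem_union, Finset.mem_Ioc, Finset.mem_Ico] at hb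
        rw [Finset.mem_filter, Finset.mem_range]
        unfold Vp
        omega
      have hd : Disjoint (Finset.Ioc a (a + K)) (Finset.Ico (n - K) n) := by
        rw [Finset.disjoint_left]
        intro b hb hb'
        rw [Finset.mem_Ioc] at hb
        rw [Finset.mem_Ico] at hb'
        omega
      have := Finset.card_le_card hsub
      rw [Finset.card_union_of_disjoint hd] at this
      simp only [Nat.card_Ioc, Nat.card_Ico] at this
      omega
    · have hsub : Finset.Ioo a n ⊆
          (Finset.range n).filter (fun b => a < b ∧ Vp n K u a b) := by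
        intro b hb
        rw [Finset.mem_Ioo] at hb
        rw [Finset.mem_filter, Finset.mem_range]
        unfold Vp
        omega
      have := Finset.card_le_card hsub
      simp only [Nat.card_Ioo] at this
      omega
  · by_cases hc : a + K < n
    · have hsub : Finset.Ioc a (a + K) ⊆
          (Finset.range n).filter (fun b => a < b ∧ Vp n K u a b) := by
        intro b hb
        rw [Finset.mem_Ioc] at hb
        rw [Finset.mem_filter, Finset.mem_range]
        unfold Vp
        omega
      have := Finset.card_le_card hsub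
      simp only [Nat.card_Ioc] at this
      omega
    · have hsub : Finset.Ioo a n ⊆
          (Finset.range n).filter (fun b => a < b ∧ Vp n K u a b) := by
        intro b hb
        rw [Finset.mem_Ioo] at hb
        rw [Finset.mem_filter, Finset.mem_range]
        unfold Vp
        omega
      have := Finset.card_le_card hsub
      simp only [Nat.card_Ioo] at this
      omega

/-- The edges are at least the visible pairs. -/
lemma edges_ge {n K u : ℕ} (hK : 1 ≤ K) (hu : K ≤ u) (hu2 : u ≤ 2 * K) (h : u + 2 * K ≤ n) :
    ∑ a ∈ Finset.range n, dd n K u a ≤ (GG n K u h).edgeSet.ncard := by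
  classical
  have h1 : ∑ a ∈ Finset.range n, dd n K u a ≤
      ∑ a ∈ Finset.range n, ((Finset.range n).filter (fun b => a < b ∧ Vp n K u a b)).card :=
    Finset.sum_le_sum fun a ha => dd_le hK hu hu2 h (Finset.mem_range.1 ha)
  refine h1.trans ?_
  rw [← Finset.card_sigma]
  have hfin : (GG n K u h).edgeSet.Finite := Set.toFinite _
  rw [Set.ncard_eq_toFinset_card _ hfin]
  refine Finset.card_le_card_of_injOn
    (fun p => if hp : p.1 < n ∧ p.2 < n then s(⟨p.1, hp.1⟩, ⟨p.2, hp.2⟩) else s(⟨0, ?_⟩, ⟨0, ?_⟩))
    ?_ ?_
  · omega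
  · omega
  · rintro ⟨a, b⟩ hp
    simp only [Finset.coe_sigma, Set.mem_sigma_iff, Finset.coe_range, Set.mem_Iio,
      Finset.coe_filter, Finset.mem_range, Set.mem_ofPred_eq] at hp
    obtain ⟨ha, hb, hab, hv⟩ := hp
    simp only [Set.Finite.coe_toFinset, dif_pos (show a < n ∧ b < n from ⟨ha, hb⟩),
      SimpleGraph.mem_edgeSet]
    refine ⟨?_, vis' hK hu h _ _ hab hv⟩
    intro hh
    rw [Fin.mk.injEq] at hh
    omega
  · rintro ⟨a, b⟩ hp ⟨c, d⟩ hq heq
    simp only [Finset.coe_sigma, Set.mem_sigma_iff, Finset.coe_range, Set.mem_Iio,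
      Finset.coe_filter, Finset.mem_range, Set.mem_ofPred_eq] at hp hq
    obtain ⟨ha, hb, hab, -⟩ := hp
    obtain ⟨hc, hd, hcd, -⟩ := hq
    simp only [dif_pos (show a < n ∧ b < n from ⟨ha, hb⟩),
      dif_pos (show c < n ∧ d < n from ⟨hc, hd⟩)] at heq
    rw [Sym2.eq_iff] at heq
    simp only [Fin.mk.injEq] at heq
    rcases heq with ⟨h1, h2⟩ | ⟨h1, h2⟩
    · subst h1; subst h2; rfl
    · omega

lemma sum_min (c : ℕ) : ∀ N, c ≤ N → 2 * (∑ i ∈ Finset.range N, min c i) + c * (c + 1) =
    2 * c * N := by
  intro N hN
  induction N, hN using Nat.le_induction with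
  | base =>
    have h1 : ∑ i ∈ Finset.range c, min c i = ∑ i ∈ Finset.range c, i := by
      apply Finset.sum_congr rfl
      intro i hi
      rw [Finset.mem_range] at hi
      omega
    rw [h1]
    have h2 := Finset.sum_range_id_mul_two c
    cases c with
    | zero => simp
    | succ c =>
      simp only [Nat.add_sub_cancel] at h2
      nlinarith
  | succ N hN ih =>
    rw [Finset.sum_range_succ, min_eq_left hN]
    nlinarith

lemma sum_min_rev (c N : ℕ) (h : c ≤ N) :
    2 * (∑ i ∈ Finset.range N, min c (N - 1 - i)) + c * (c + 1) = 2 * c * N := by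
  rw [Finset.sum_range_reflect (fun i => min c i) N]
  exact sum_min c N h

/-- Closed form of the number of visible pairs. -/
lemma sum_dd {n K u : ℕ} (hK : 1 ≤ K) (hu : K ≤ u) (hu2 : u ≤ 2 * K) (h : u + 2 * K ≤ n) :
    2 * (∑ a ∈ Finset.range n, dd n K u a) + K * (K + 1) + (2 * K - u) * (2 * K - u + 1) +
      (3 * K + u - n) * (3 * K + u - n + 1) = 4 * K * n := by
  obtain ⟨m, rfl⟩ : ∃ m, n = K + (u - K) + K + m := ⟨n - (u + K), by omega⟩
  obtain ⟨v, rfl⟩ : ∃ v, u = K + v := ⟨u - K, by omega⟩
  have hv : K + v - K = v := by omega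
  rw [hv] at *
  set n := K + v + K + m with hn
  have e0 : ∑ a ∈ Finset.range n, dd n K (K + v) a =
      (∑ i ∈ Finset.range K, dd n K (K + v) i) +
      (∑ i ∈ Finset.range v, dd n K (K + v) (K + i)) +
      (∑ i ∈ Finset.range K, dd n K (K + v) (K + v + i)) +
      (∑ i ∈ Finset.range m, dd n K (K + v) (K + v + K + i)) := by
    rw [hn, Finset.sum_range_add, Finset.sum_range_add, Finset.sum_range_add]
  have e1 : ∑ i ∈ Finset.range K, dd n K (K + v) i =
      K * (n - K) + ∑ i ∈ Finset.range K, min (K - v) i := by
    rw [← Finset.sum_range_reflect (fun i => min (K - v) i) K]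
    have : K * (n - K) = ∑ i ∈ Finset.range K, (n - K) := by simp
    rw [this, ← Finset.sum_add_distrib]
    apply Finset.sum_congr rfl
    intro i hi
    rw [Finset.mem_range] at hi
    unfold dd
    rw [if_pos hi]
    omega
  have e2 : ∑ i ∈ Finset.range v, dd n K (K + v) (K + i) = v * (2 * K) := by
    have : v * (2 * K) = ∑ i ∈ Finset.range v, (2 * K) := by simp
    rw [this]
    apply Finset.sum_congr rfl
    intro i hi
    rw [Finset.mem_range] at hi
    unfold dd
    rw [if_neg (by omega), if_pos (by omega)]
  have e4 : ∑ i ∈ Finset.range m, dd n K (K + v) (K + v + K + i) =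
      ∑ i ∈ Finset.range m, min K (m - 1 - i) := by
    apply Finset.sum_congr rfl
    intro i hi
    rw [Finset.mem_range] at hi
    unfold dd
    rw [if_neg (by omega), if_neg (by omega), if_neg (by omega)]
    omega
  have e3 : (∑ i ∈ Finset.range K, dd n K (K + v) (K + v + i)) + (2 * K - m) * K =
      K * (2 * K) + ∑ i ∈ Finset.range K, min (2 * K - m) i := by
    rw [← Finset.sum_range_reflect (fun i => min (2 * K - m) i) K]
    have h1 : K * (2 * K) = ∑ i ∈ Finset.range K, (2 * K) := by simp
    have h2 : (2 * K - m) * K = ∑ i ∈ Finset.range K, (2 * K - m) := by simp [mul_comm]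
    rw [h1, h2, ← Finset.sum_add_distrib, ← Finset.sum_add_distrib]
    apply Finset.sum_congr rfl
    intro i hi
    rw [Finset.mem_range] at hi
    unfold dd
    rw [if_neg (by omega), if_neg (by omega), if_pos (by omega)]
    omega
  have f1 := sum_min (K - v) K (by omega)
  have f3 := sum_min (2 * K - m) K (by omega)
  have f4 := sum_min_rev K m (by omega)
  rw [e0, e1, e2, e4]
  have g1 : 2 * K - (K + v) = K - v := by omega
  have g2 : 3 * K + (K + v) - n = 2 * K - m := by omega
  rw [g1, g2]
  have hKv : v ≤ K := by omega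
  obtain ⟨p, hp⟩ : ∃ p, K = v + p := ⟨K - v, by omega⟩
  have g3 : K - v = p := by omega
  have g4 : n - K = v + K + m := by omega
  rw [g3] at f1 ⊢
  rw [g4]
  generalize (∑ i ∈ Finset.range K, min (2 * K - m) i) = Sq at *
  generalize (∑ i ∈ Finset.range K, min p i) = Sp at *
  generalize (∑ i ∈ Finset.range m, min K (m - 1 - i)) = S4 at *
  generalize (∑ i ∈ Finset.range K, dd n K (K + v) (K + v + i)) = S3 at *
  generalize 2 * K - m = q at *
  clear_value n
  subst hn
  subst hp
  zify at *
  linear_combination f1 + f3 + f4 + 2 * e3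

end Pool.Agent.T6.H91.SA
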