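import Mathlib
import Pool.Agent.T6.H91.SA.Lower
import Pool.Agent.T6.H91.SA.Count

/-!
# Upper bound for the number of edges of a semi-arc `k`-visibility graph
-/

namespace Pool.Agent.T6.H91.SA

open Finset Pool.Agent.Results.MP_e2d93f_co.AllK

lemma edges_le_of_VisC {n : ℕ} (r b : Fin n → ℝ) (hr0 : ∀ i, 0 < r i)
    (hr : Function.Injective r) (hb : ∀ i, b i < 2 * Real.pi) (k : ℕ) (hn : k + 1 ≤ n)
    (G : SimpleGraph (Fin n)) (hG : ∀ u v, G.Adj u v → VisC r b k u v) :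
    2 * G.edgeSet.ncard + (k + 1) * (k + 2) ≤ 4 * (k + 1) * n := by
  classical
  set F : Fin n → Finset (Fin n) := fun i => OO r b k i ∪ (I1 r b k i ∪ I2 r b k i) with hF
  have hsub : G.edgeSet ⊆ ((univ : Finset (Fin n)).biUnion
      (fun i => (F i).image (fun j => s(i, j))) : Finset (Sym2 (Fin n))) := by
    intro e he
    induction e using Sym2.ind with
    | _ u v =>
      rw [SimpleGraph.mem_edgeSet] at he
      have hv := hG u v he
      have hne : u ≠ v := he.ne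
      rw [mem_coe, mem_biUnion]
      rcases lg_total b hne with h | h
      · rcases charge r b hr0 hr hb k h hv with h1 | h1
        · refine ⟨u, mem_univ _, ?_⟩
          rw [mem_image]
          refine ⟨v, ?_, rfl⟩
          simp only [hF, mem_union]
          tauto
        · refine ⟨v, mem_univ _, ?_⟩
          rw [mem_image]
          refine ⟨u, ?_, Sym2.eq_swap⟩
          simp only [hF, mem_union]
          tauto
      · rcases charge r b hr0 hr hb k h (VisC_symm hv) with h1 | h1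
        · refine ⟨v, mem_univ _, ?_⟩
          rw [mem_image]
          refine ⟨u, ?_, Sym2.eq_swap⟩
          simp only [hF, mem_union]
          tauto
        · refine ⟨u, mem_univ _, ?_⟩
          rw [mem_image]
          refine ⟨v, ?_, rfl⟩
          simp only [hF, mem_union]
          tauto
  have h1 : G.edgeSet.ncard ≤ ((univ : Finset (Fin n)).biUnion
      (fun i => (F i).image (fun j => s(i, j)))).card := by
    rw [← Set.ncard_coe_finset]
    exact Set.ncard_le_ncard hsub (Set.toFinite _)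
  have h2 : ((univ : Finset (Fin n)).biUnion (fun i => (F i).image (fun j => s(i, j)))).card ≤
      ∑ i : Fin n, (min (k + 1) (univ.filter (fun j => r i < r j)).card + (k + 1)) := by
    refine card_biUnion_le.trans (sum_le_sum fun i _ => ?_)
    refine card_image_le.trans ?_
    refine (card_union_le _ _).trans ?_
    have h3 := OO_card r b hr k i
    have h4 := OO_card' r b k i
    have h5 := II_card r b hr k i
    have h6 : (OO r b k i).card ≤ min (k + 1) (univ.filter (fun j => r i < r j)).card :=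
      le_min h3 (by convert h4)
    have h7 : (I1 r b k i ∪ I2 r b k i).card ≤ k + 1 := by convert h5
    omega
  rw [sum_add_distrib] at h2
  have h3 := sum_rank r hr (k + 1)
  have h4 := sum_min (k + 1) n hn
  have h5 : ∑ i : Fin n, (k + 1) = n * (k + 1) := by simp
  rw [h5] at h2
  have h6 : ∑ i : Fin n, min (k + 1) (univ.filter (fun j => r i < r j)).card =
      ∑ m ∈ range n, min (k + 1) m := by convert h3
  rw [h6] at h2
  nlinarith

lemma exists_dir {φ₁ φ₂ : ℝ} (h1 : φ₁ < φ₂) (h2 : φ₂ < φ₁ + Real.pi) :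
    ∃ φ ∈ Set.Icc φ₁ φ₂, ∃ (m : ℤ) (θ : ℝ), 0 < θ ∧ θ < Real.pi ∧ φ = θ + m * Real.pi := by
  have hpi := Real.pi_pos
  have key : ∀ φ : ℝ, (∃ m : ℤ, φ = m * Real.pi) ∨
      ∃ (m : ℤ) (θ : ℝ), 0 < θ ∧ θ < Real.pi ∧ φ = θ + m * Real.pi := by
    intro φ
    set m : ℤ := ⌊φ / Real.pi⌋ with hm
    have h3 : (m : ℝ) ≤ φ / Real.pi := Int.floor_le _
    have h4 : φ / Real.pi < m + 1 := Int.lt_floor_add_one _
    rw [le_div_iff₀ hpi] at h3
    rw [div_lt_iff₀ hpi] at h4
    rcases h3.lt_or_eq with h5 | h5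
    · right
      exact ⟨m, φ - m * Real.pi, by linarith, by linarith, by ring⟩
    · left
      exact ⟨m, h5.symm⟩
  rcases key φ₁ with ⟨m, hm⟩ | h
  · rcases key φ₂ with ⟨m', hm'⟩ | h
    · exfalso
      have h3 : (m : ℝ) < m' := by
        have : (m : ℝ) * Real.pi < m' * Real.pi := by linarith
        exact lt_of_mul_lt_mul_right this hpi.le
      have h4 : (m' : ℝ) < m + 1 := by
        have : (m' : ℝ) * Real.pi < (m + 1) * Real.pi := by linarith
        exact lt_of_mul_lt_mul_right this hpi.le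
      have h5 : m < m' := by exact_mod_cast h3
      have h6 : m' < m + 1 := by exact_mod_cast h4
      omega
    · exact ⟨φ₂, ⟨h1.le, le_rfl⟩, h⟩
  · exact ⟨φ₁, ⟨le_rfl, h1.le⟩, h⟩

lemma pt_shift (s θ : ℝ) (m : ℤ) : pt s (θ + m * Real.pi) = pt ((-1 : ℝ) ^ m * s) θ := by
  induction m using Int.induction_on with
  | zero => simp
  | succ i ih =>
    have h1 : θ + ((i : ℤ) + 1 : ℤ) * Real.pi = (θ + (i : ℤ) * Real.pi) + Real.pi := by
      push_cast; ring
    rw [h1, ← pt_neg, zpow_add₀ (by norm_num : (-1 : ℝ) ≠ 0), zpow_one]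
    have h2 : pt (-s) (θ + (i : ℤ) * Real.pi) = -pt s (θ + (i : ℤ) * Real.pi) := by
      unfold pt; push_cast; ring
    rw [h2, ih]
    unfold pt; push_cast; ring
  | pred i ih =>
    have h1 : θ + (-(i : ℤ) : ℤ) * Real.pi = (θ + (-(i : ℤ) - 1 : ℤ) * Real.pi) + Real.pi := by
      push_cast; ring
    rw [h1, ← pt_neg] at ih
    have h2 : pt (-s) (θ + (-(i : ℤ) - 1 : ℤ) * Real.pi) =
        -pt s (θ + (-(i : ℤ) - 1 : ℤ) * Real.pi) := by
      unfold pt; push_cast; ring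
    rw [h2] at ih
    rw [zpow_sub₀ (by norm_num : (-1 : ℝ) ≠ 0), zpow_one]
    have h3 : pt s (θ + (-(i : ℤ) - 1 : ℤ) * Real.pi) = -pt ((-1 : ℝ) ^ (-(i : ℤ)) * s) θ := by
      rw [← ih]; ring
    rw [h3]
    unfold pt; push_cast; ring

lemma sgn_pow (m : ℤ) : (-1 : ℝ) ^ m = 1 ∨ (-1 : ℝ) ^ m = -1 := by
  rcases Int.even_or_odd m with h | h
  · exact Or.inl h.neg_one_zpow
  · exact Or.inr h.neg_one_zpow

lemma mem_uIcc_mul {m : ℤ} {s t v : ℝ} (h : (-1 : ℝ) ^ m * v ∈
    Set.uIcc ((-1 : ℝ) ^ m * s) ((-1 : ℝ) ^ m * t)) : v ∈ Set.uIcc s t := by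
  rcases sgn_pow m with h1 | h1
  · rw [h1] at h
    simpa using h
  · rw [h1] at h
    rw [Set.mem_uIcc] at h ⊢
    rcases h with h | h
    · right; constructor <;> linarith [h.1, h.2]
    · left; constructor <;> linarith [h.1, h.2]

lemma radius_inj {n : ℕ} (A : Fin n → Arc) (ha : ∀ v, (A v).a = 0)
    (hd : ∀ u v, u ≠ v → Disjoint (A u).carrier (A v).carrier) :
    Function.Injective (fun v => (A v).r) := by
  intro u v huv
  simp only at huv
  by_contra hne
  have h := hd u v hne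
  rw [Set.disjoint_left] at h
  apply h (a := pt (A u).r 0)
  · refine ⟨0, ⟨(ha u).le, ?_⟩, rfl⟩
    have := (A u).hab
    rw [ha u] at this
    exact this
  · refine ⟨0, ⟨(ha v).le, ?_⟩, by rw [huv]⟩
    have := (A v).hab
    rw [ha v] at this
    exact this

lemma VisC_of_KVisible {n : ℕ} (k : ℕ) (A : Fin n → Arc) (ha : ∀ v, (A v).a = 0)
    {u v : Fin n} (h : KVisible k A u v) :
    VisC (fun v => (A v).r) (fun v => (A v).b) k u v := by
  classical
  obtain ⟨s, t, φ₁, φ₂, hs, ht, hst, h1, h2, h3, h4, h5⟩ := h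
  obtain ⟨φ, hφ, m, θ, hθ, hθ', hφθ⟩ := exists_dir h1 h2
  have hpi := Real.pi_pos
  have hray : ∀ (w : Fin n) (x : ℝ), pt x θ ∈ (A w).carrier →
      (x = (A w).r ∧ θ ≤ (A w).b) ∨ (x = -(A w).r ∧ θ + Real.pi ≤ (A w).b) := by
    rintro w x ⟨ψ, hψ, hx⟩
    have hb := (A w).hb
    rw [ha w] at hb
    rw [ha w] at hψ
    rcases pt_eq (A w).hr hθ hθ' hψ.1 (by linarith [hψ.2]) hx with ⟨h6, h7⟩ | ⟨h6, h7⟩
    · left; exact ⟨h6, by rw [h7]; exact hψ.2⟩
    · right; exact ⟨h6, by rw [h7]; exact hψ.2⟩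
  have hray' : ∀ (w : Fin n) (x : ℝ), ((x = (A w).r ∧ θ ≤ (A w).b) ∨
      (x = -(A w).r ∧ θ + Real.pi ≤ (A w).b)) → pt x θ ∈ (A w).carrier := by
    rintro w x (⟨rfl, hx⟩ | ⟨rfl, hx⟩)
    · refine ⟨θ, ⟨?_, hx⟩, rfl⟩
      rw [ha w]; exact hθ.le
    · rw [pt_neg]
      refine ⟨θ + Real.pi, ⟨?_, hx⟩, rfl⟩
      rw [ha w]; linarith
  set ε : ℝ := (-1 : ℝ) ^ m with hε
  have hεε : ε * ε = 1 := by
    rcases sgn_pow m with h | h
    · rw [hε, h]; norm_num
    · rw [hε, h]; norm_num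
  refine ⟨θ, ε * s, ε * t, hθ, hθ', ?_, ?_, ?_⟩
  · apply hray
    rw [hε, ← pt_shift, ← hφθ]
    exact h3 ⟨φ, hφ, rfl⟩
  · apply hray
    rw [hε, ← pt_shift, ← hφθ]
    exact h4 ⟨φ, hφ, rfl⟩
  · have hsub : ((univ.filter (fun w => w ≠ u ∧ w ≠ v ∧
        ((θ ≤ (A w).b ∧ (A w).r ∈ Set.uIcc (ε * s) (ε * t)) ∨
        (θ + Real.pi ≤ (A w).b ∧ -(A w).r ∈ Set.uIcc (ε * s) (ε * t)))) : Finset (Fin n)) :
        Set (Fin n)) ⊆
        {w : Fin n | w ≠ u ∧ w ≠ v ∧ (cone s t φ₁ φ₂ ∩ (A w).carrier).Nonempty} := by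
      intro w hw
      rw [mem_coe, mem_filter] at hw
      obtain ⟨-, hwu, hwv, hw⟩ := hw
      refine ⟨hwu, hwv, ?_⟩
      have key : ∃ x, x ∈ Set.uIcc (ε * s) (ε * t) ∧ pt x θ ∈ (A w).carrier := by
        rcases hw with ⟨h6, h7⟩ | ⟨h6, h7⟩
        · exact ⟨(A w).r, h7, hray' w _ (Or.inl ⟨rfl, h6⟩)⟩
        · exact ⟨-(A w).r, h7, hray' w _ (Or.inr ⟨rfl, h6⟩)⟩
      obtain ⟨x, hx, hx'⟩ := key
      refine ⟨pt x θ, ⟨φ, hφ, ε * x, ?_, ?_⟩, hx'⟩
      · apply mem_uIcc_mul (m := m)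
        rw [← hε]
        have : ε * (ε * x) = x := by rw [← mul_assoc, hεε, one_mul]
        rw [this]
        exact hx
      · rw [hφθ, pt_shift, ← hε]
        have : ε * (ε * x) = x := by rw [← mul_assoc, hεε, one_mul]
        rw [this]
    have h6 := (Set.encard_le_encard hsub).trans h5
    rw [Set.encard_coe_eq_coe_finsetCard] at h6
    exact_mod_cast h6

/-- **Upper bound.** -/
theorem semi_edges_le {n : ℕ} (k : ℕ) (hn : k + 1 ≤ n) (G : SimpleGraph (Fin n))
    (hG : IsSemiArcVisibility k G) :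
    2 * G.edgeSet.ncard + (k + 1) * (k + 2) ≤ 4 * (k + 1) * n := by
  obtain ⟨A, ha, hd, hA⟩ := hG
  refine edges_le_of_VisC (fun v => (A v).r) (fun v => (A v).b) (fun i => (A i).hr)
    (radius_inj A ha hd) ?_ k hn G ?_
  · intro i
    have := (A i).hb
    rw [ha i] at this
    show (A i).b < 2 * Real.pi
    linarith
  · intro u v huv
    exact VisC_of_KVisible k A ha ((hA u v huv.ne).1 huv)

end Pool.Agent.T6.H91.SA
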